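import Pool.Agent.Helper45.CF.GoalsC
import Pool.Agent.Helper34.CAR.Parts

/-!
Packet CF2-FMAP (MP_d97caa_an): homomorphisms between fields.
-/

set_option autoImplicit false

open scoped ComplexOrder ZeroAtInfty Topology
open TopologicalSpace

namespace Pool.Agent.Helper84.CF2.FMAP

open Pool.Agent.Helper34.CAR Pool.Agent.Helper39.CR Pool.Agent.Helper45.CF

/-- A non-unital *-homomorphism with `F 1 = 1` as a unital one. -/
noncomputable def unital {H H' : Type} [CStarAlgebra H] [CStarAlgebra H'] (F : H →⋆ₙₐ[ℂ] H')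
    (h : F 1 = 1) : H →⋆ₐ[ℂ] H' where
  toFun := F
  map_one' := h
  map_mul' := map_mul F
  map_zero' := map_zero F
  map_add' := map_add F
  commutes' c := by
    rw [Algebra.algebraMap_eq_smul_one, map_smul F, h, Algebra.algebraMap_eq_smul_one]
  map_star' := map_star F

theorem t : S_FMAP := by
  intro H H' _ _ A A' _ _ ι ι' κ κ' α hinj h1 h2 h3 hd
  obtain ⟨F, hF⟩ := t_EXT H H' A (fun i => StarAlgHom.toNonUnitalStarAlgHom (ι i))
    (fun i => StarAlgHom.toNonUnitalStarAlgHom ((ι' i).comp (α i)))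
    (fun i => hinj i)
    (fun i x => ⟨κ i x, h1 i x, by
      show ι' (i + 1) (α (i + 1) (κ i x)) = ι' i (α i x)
      rw [h3, h2]⟩) hd
  have hF' : ∀ i a, F (ι i a) = ι' i (α i a) := fun i a => hF i a
  refine ⟨unital F ?_, fun i a => hF' i a⟩
  have h4 := hF' 0 1
  rw [map_one (ι 0), map_one (α 0), map_one (ι' 0)] at h4
  exact h4

end Pool.Agent.Helper84.CF2.FMAP
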